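import Pool.Agent.NBT.StmtsC

/-! NBT row FLA: the times of the first failure. -/

set_option autoImplicit false

open Matrix Filter Topology

namespace Pool.Agent.NBT.H86

open Pool.Agent.PFS Pool.Agent.PFJ Pool.Agent.NBT

variable {n K : ℕ}

/-- the point at the time `t` -/
theorem flow_mem {C : Set (V n)} {w : Fin K → V n} (hw : PES C w) (S : Finset (Fin K)) (t : ℝ) :
    Real.exp t • fS w S + fS w Sᶜ ∈ C := by
  classical
  have h := hw.pos (fun i => if i ∈ S then Real.exp t else 1) (fun i => by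
    show 0 < (if i ∈ S then Real.exp t else 1)
    split_ifs
    · exact Real.exp_pos t
    · exact one_pos)
  have e : ∑ i, (if i ∈ S then Real.exp t else 1) • w i =
      Real.exp t • fS w S + fS w Sᶜ := by
    unfold fS
    rw [Finset.smul_sum, ← Finset.sum_add_sum_compl S]
    have e1 : ∑ i ∈ S, (if i ∈ S then Real.exp t else 1) • w i = ∑ i ∈ S, Real.exp t • w i :=
      Finset.sum_congr rfl fun i hi => by rw [if_pos hi]
    have e2 : ∑ i ∈ Sᶜ, (if i ∈ S then Real.exp t else 1) • w i = ∑ i ∈ Sᶜ, w i :=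
      Finset.sum_congr rfl fun i hi => by rw [if_neg (Finset.mem_compl.1 hi), one_smul]
    rw [e1, e2]
  rw [e] at h
  exact h

theorem fS_cl {C : Set (V n)} (hC : PCone C) {w : Fin K → V n} (hw : PES C w)
    (S : Finset (Fin K)) : fS w S ∈ closure C :=
  hC.cl_sum fun i _ => PES.cl hw i

/-- the two conditions at the time `t` -/
def Cnd (C : Set (V n)) (w : Fin K → V n) (S : Finset (Fin K)) (δ t : ℝ) (u : V n) : Prop :=
  δ • (Real.exp t • fS w S + fS w Sᶜ) - Real.exp t • u ∈ closure C ∧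
    δ • (Real.exp t • fS w S + fS w Sᶜ) + Real.exp t • u ∈ closure C

/-- the condition at all integral times -/
theorem of_all {C : Set (V n)} {w : Fin K → V n} (hC : PCone C) (S : Finset (Fin K)) {δ : ℝ}
    {u : V n} (h : ∀ t : ℕ, Cnd C w S δ t u) :
    δ • fS w S - u ∈ closure C ∧ δ • fS w S + u ∈ closure C := by
  have hlim : ∀ v : V n, Tendsto (fun t : ℕ =>
      δ • fS w S + Real.exp (-(t : ℝ)) • (δ • fS w Sᶜ) + v) atTop
      (𝓝 (δ • fS w S + (0 : ℝ) • (δ • fS w Sᶜ) + v)) := by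
    intro v
    have h1 : Tendsto (fun t : ℕ => Real.exp (-(t : ℝ))) atTop (𝓝 0) :=
      Real.tendsto_exp_neg_atTop_nhds_zero.comp tendsto_natCast_atTop_atTop
    exact ((h1.smul_const _).const_add _).add_const _
  have hexp : ∀ t : ℕ, Real.exp (-(t : ℝ)) * Real.exp (t : ℝ) = 1 := by
    intro t
    rw [← Real.exp_add, neg_add_cancel, Real.exp_zero]
  constructor
  · have h1 := hlim (-u)
    rw [zero_smul, add_zero, ← sub_eq_add_neg] at h1
    refine isClosed_closure.mem_of_tendsto h1 (Eventually.of_forall fun t => ?_)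
    have h2 := hC.cl_smul (h t).1 (Real.exp_pos (-(t : ℝ))).le
    have h3 : Real.exp (-(t : ℝ)) • (δ • (Real.exp (t : ℝ) • fS w S + fS w Sᶜ) -
        Real.exp (t : ℝ) • u) = δ • fS w S + Real.exp (-(t : ℝ)) • (δ • fS w Sᶜ) + -u := by
      have e1 : Real.exp (-(t : ℝ)) • (δ • (Real.exp (t : ℝ) • fS w S + fS w Sᶜ) -
          Real.exp (t : ℝ) • u) = (Real.exp (-(t : ℝ)) * Real.exp (t : ℝ)) • (δ • fS w S) +
          Real.exp (-(t : ℝ)) • (δ • fS w Sᶜ) +
          -((Real.exp (-(t : ℝ)) * Real.exp (t : ℝ)) • u) := by module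
      rw [e1, hexp, one_smul, one_smul]
    rw [h3] at h2
    exact h2
  · have h1 := hlim u
    rw [zero_smul, add_zero] at h1
    refine isClosed_closure.mem_of_tendsto h1 (Eventually.of_forall fun t => ?_)
    have h2 := hC.cl_smul (h t).2 (Real.exp_pos (-(t : ℝ))).le
    have h3 : Real.exp (-(t : ℝ)) • (δ • (Real.exp (t : ℝ) • fS w S + fS w Sᶜ) +
        Real.exp (t : ℝ) • u) = δ • fS w S + Real.exp (-(t : ℝ)) • (δ • fS w Sᶜ) + u := by
      have e1 : Real.exp (-(t : ℝ)) • (δ • (Real.exp (t : ℝ) • fS w S + fS w Sᶜ) +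
          Real.exp (t : ℝ) • u) = (Real.exp (-(t : ℝ)) * Real.exp (t : ℝ)) • (δ • fS w S) +
          Real.exp (-(t : ℝ)) • (δ • fS w Sᶜ) +
          (Real.exp (-(t : ℝ)) * Real.exp (t : ℝ)) • u := by module
      rw [e1, hexp, one_smul, one_smul]
    rw [h3] at h2
    exact h2

/-- one step: the condition at `t - 1` gives the condition with `3 δ` at `t` -/
theorem step {C : Set (V n)} (hC : PCone C) {w : Fin K → V n} (hw : PES C w)
    (S : Finset (Fin K)) {δ t : ℝ} (hδ : 0 < δ) {u : V n} (h : Cnd C w S δ t u) :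
    Cnd C w S (3 * δ) (t + 1) u := by
  have he : Real.exp 1 < 3 := by
    have := Real.exp_one_lt_d9
    linarith
  have he0 : 0 < Real.exp 1 := Real.exp_pos 1
  have h1 : (2 * δ * Real.exp (t + 1)) • fS w S ∈ closure C :=
    hC.cl_smul (fS_cl hC hw S) (by positivity)
  have h2 : (δ * (3 - Real.exp 1)) • fS w Sᶜ ∈ closure C :=
    hC.cl_smul (fS_cl hC hw Sᶜ) (mul_nonneg hδ.le (by linarith))
  have h3 := hC.cl_add h1 h2
  constructor
  · have h4 := hC.cl_add (hC.cl_smul h.1 he0.le) h3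
    have h5 : Real.exp 1 • (δ • (Real.exp t • fS w S + fS w Sᶜ) - Real.exp t • u) +
        ((2 * δ * Real.exp (t + 1)) • fS w S + (δ * (3 - Real.exp 1)) • fS w Sᶜ) =
        (3 * δ) • (Real.exp (t + 1) • fS w S + fS w Sᶜ) - Real.exp (t + 1) • u := by
      rw [Real.exp_add]
      module
    rw [h5] at h4
    exact h4
  · have h4 := hC.cl_add (hC.cl_smul h.2 he0.le) h3
    have h5 : Real.exp 1 • (δ • (Real.exp t • fS w S + fS w Sᶜ) + Real.exp t • u) +
        ((2 * δ * Real.exp (t + 1)) • fS w S + (δ * (3 - Real.exp 1)) • fS w Sᶜ) =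
        (3 * δ) • (Real.exp (t + 1) • fS w S + fS w Sᶜ) + Real.exp (t + 1) • u := by
      rw [Real.exp_add]
      module
    rw [h5] at h4
    exact h4

theorem fla (hT : TbfStmt) (hB : BinStmt) : FlaStmt := by
  classical
  intro n C Γ Γ₀ K T c h S w p hw hp z hz hlim hne δ hδ
  have hC : PCone C := h.cc.toPCone
  have hpes : PES C w := (h.pes w hw).1
  obtain ⟨-, t2, -, -, -, t6, -⟩ := hT n C Γ Γ₀ K T c h w hw
  obtain ⟨-, -, b3, -⟩ := hB n C Γ Γ₀ K T c h w hw
  set u : ℕ → Fin K → V n := fun m i => z m i - p (z m i) with hu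
  -- (a)
  have ha : ∀ t : ℕ, ∀ᶠ m in atTop, ∀ i ∈ S, Cnd C w S δ t (u m i) := by
    intro t
    have hP : δ • (Real.exp (t : ℝ) • fS w S + fS w Sᶜ) ∈ C :=
      hC.smul _ (flow_mem hpes S t) δ hδ
    rw [eventually_all_finset]
    intro i hi
    have hui : Tendsto (fun m => u m i) atTop (𝓝 0) := by
      have h1 : Tendsto (fun m => z m i - p (z m i)) atTop (𝓝 (w i - p (w i))) :=
        (hlim i).sub ((p.continuous_of_finiteDimensional.tendsto (w i)).comp (hlim i))
      rw [hp.idB _ ((t6 i S).2 hi), sub_self] at h1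
      exact h1
    have h1 : Tendsto (fun m => δ • (Real.exp (t : ℝ) • fS w S + fS w Sᶜ) -
        Real.exp (t : ℝ) • u m i) atTop (𝓝 (δ • (Real.exp (t : ℝ) • fS w S + fS w Sᶜ))) := by
      have := (tendsto_const_nhds (x := δ • (Real.exp (t : ℝ) • fS w S + fS w Sᶜ))
        (f := (atTop : Filter ℕ))).sub (hui.const_smul (Real.exp (t : ℝ)))
      rwa [smul_zero, sub_zero] at this
    have h2 : Tendsto (fun m => δ • (Real.exp (t : ℝ) • fS w S + fS w Sᶜ) +
        Real.exp (t : ℝ) • u m i) atTop (𝓝 (δ • (Real.exp (t : ℝ) • fS w S + fS w Sᶜ))) := by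
      have := (tendsto_const_nhds (x := δ • (Real.exp (t : ℝ) • fS w S + fS w Sᶜ))
        (f := (atTop : Filter ℕ))).add (hui.const_smul (Real.exp (t : ℝ)))
      rwa [smul_zero, add_zero] at this
    filter_upwards [h1.eventually (hC.isOpen.mem_nhds hP),
      h2.eventually (hC.isOpen.mem_nhds hP)] with m h3 h4
    exact ⟨subset_closure h3, subset_closure h4⟩
  -- (b)
  have hb : ∀ m, ∃ t : ℕ, ¬ ∀ i ∈ S, Cnd C w S δ t (u m i) := by
    intro m
    by_contra hcon
    push Not at hcon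
    have hfS : fS w S ∈ BI C w S :=
      Submodule.sum_mem _ fun i hi => (t6 i S).2 hi
    apply hne m
    apply b3 (z m) (hz m) S
    intro i hi
    obtain ⟨h1, h2⟩ := of_all hC S fun t => hcon t i hi
    have h3 : δ • fS w S + u m i ∈ BI C w S := by
      refine t2 S _ h2 (2 * δ) ?_
      have h4 : (2 * δ) • fS w S - (δ • fS w S + u m i) = δ • fS w S - u m i := by module
      rw [h4]
      exact h1
    have h4 : u m i ∈ BI C w S := by
      have h5 := Submodule.sub_mem _ h3 (Submodule.smul_mem _ δ hfS)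
      rwa [add_sub_cancel_left] at h5
    have h5 := Submodule.add_mem _ h4 (hp.mem (z m i))
    have h6 : u m i + p (z m i) = z m i := by
      rw [hu]
      exact sub_add_cancel _ _
    rwa [h6] at h5
  -- the first failure
  have hmin : ∀ m, ∃ t : ℕ, (¬ ∀ i ∈ S, Cnd C w S δ t (u m i)) ∧
      ∀ k : ℕ, k < t → ∀ i ∈ S, Cnd C w S δ k (u m i) := fun m =>
    ⟨Nat.find (hb m), Nat.find_spec (hb m), fun k hk => not_not.1 (Nat.find_min (hb m) hk)⟩
  choose τ hτ1 hbef using hmin
  have hfail : ∀ m, ∃ i ∈ S, ¬ Cnd C w S δ (τ m : ℕ) (u m i) := by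
    intro m
    have h1 := hτ1 m
    push Not at h1
    exact h1
  have hτlim : Tendsto τ atTop atTop := by
    rw [tendsto_atTop]
    intro N
    have h1 : ∀ᶠ m in atTop, ∀ t ∈ Finset.range N, ∀ i ∈ S, Cnd C w S δ t (u m i) := by
      rw [eventually_all_finset]
      intro t _
      exact ha t
    filter_upwards [h1] with m hm
    by_contra hlt
    obtain ⟨i, hi, h2⟩ := hfail m
    exact h2 (hm (τ m) (Finset.mem_range.2 (not_le.1 hlt)) i hi)
  choose f hfS hfail' using hfail
  -- the constant failing index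
  obtain ⟨i0, hi0⟩ : ∃ i0 : Fin K, ∃ᶠ m in atTop, f m = i0 := by
    by_contra hcon
    push Not at hcon
    have h1 : ∀ i : Fin K, ∀ᶠ m in atTop, f m ≠ i := hcon
    have h2 := eventually_all.2 h1
    obtain ⟨m, hm⟩ := h2.exists
    exact hm (f m) rfl
  have hfr : ∃ᶠ m in atTop, f m = i0 ∧ 1 ≤ τ m :=
    hi0.and_eventually (hτlim.eventually_ge_atTop 1)
  obtain ⟨φ, hφ, hφ'⟩ := extraction_of_frequently_atTop hfr
  refine ⟨φ, fun m => (τ (φ m) : ℝ), i0, hφ,
    tendsto_natCast_atTop_atTop.comp (hτlim.comp hφ.tendsto_atTop), ?_, ?_, ?_⟩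
  · have h1 := hfS (φ 0)
    rwa [(hφ' 0).1] at h1
  · intro m i hi
    have h1 := hbef (φ m) (τ (φ m) - 1) (by have := (hφ' m).2; omega) i hi
    have h2 := step hC hpes S hδ h1
    have h3 : ((τ (φ m) - 1 : ℕ) : ℝ) + 1 = (τ (φ m) : ℝ) := by
      have h4 : (τ (φ m) - 1) + 1 = τ (φ m) := Nat.sub_add_cancel (hφ' m).2
      exact_mod_cast h4
    rw [h3] at h2
    exact h2
  · intro m
    have h1 := hfail' (φ m)
    rw [(hφ' m).1] at h1
    exact h1

end Pool.Agent.NBT.H86
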